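import Pool.Agent.BEJ.Stmts

/-! # Squad BEJ (MP_be01ff_an), row EEB: the function `E` -/

set_option autoImplicit false

namespace Pool.Agent.BEJ.H27

open Set Filter Topology MeasureTheory
open Pool.Agent.BEJ

noncomputable section

/-- the base `1 + i t²/2` -/
def eebZ (t : ℝ) : ℂ := 1 + Complex.I * (t : ℂ) ^ 2 / 2

theorem eeb_re (a b : ℝ) : ((a : ℂ) + (b : ℂ) * Complex.I).re = a := by
  rw [Complex.add_re, Complex.ofReal_re, Complex.mul_I_re, Complex.ofReal_im, neg_zero, add_zero]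

theorem eeb_im' (a b : ℝ) : ((a : ℂ) + (b : ℂ) * Complex.I).im = b := by
  rw [Complex.add_im, Complex.ofReal_im, Complex.mul_I_im, Complex.ofReal_re, zero_add]

theorem eebZ_eq (t : ℝ) : eebZ t = ((1 : ℝ) : ℂ) + ((t ^ 2 / 2 : ℝ) : ℂ) * Complex.I := by
  unfold eebZ
  push_cast
  ring

theorem eebZ_re (t : ℝ) : (eebZ t).re = 1 := by
  rw [eebZ_eq, eeb_re]

theorem eebZ_im (t : ℝ) : (eebZ t).im = t ^ 2 / 2 := by
  rw [eebZ_eq, eeb_im']

theorem eebZ_slit (t : ℝ) : eebZ t ∈ Complex.slitPlane := by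
  left
  rw [eebZ_re]
  exact one_pos

theorem eebZ_ne (t : ℝ) : eebZ t ≠ 0 := by
  intro h
  have h1 := eebZ_re t
  rw [h] at h1
  simp at h1

/-- the power `(1 + i t²/2)^(-1/2)` -/
def eebU (t : ℝ) : ℂ := eebZ t ^ (-(1 / 2 : ℂ))

theorem eebU_sq (t : ℝ) : eebU t * eebU t * eebZ t = 1 := by
  unfold eebU
  rw [← Complex.cpow_add _ _ (eebZ_ne t),
    show (-(1 / 2 : ℂ)) + (-(1 / 2 : ℂ)) = -1 by norm_num, Complex.cpow_neg_one,
    inv_mul_cancel₀ (eebZ_ne t)]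

theorem eebU_re (t : ℝ) : 0 < (eebU t).re := by
  unfold eebU
  rw [Complex.cpow_def_of_ne_zero (eebZ_ne t), Complex.exp_re]
  refine mul_pos (Real.exp_pos _) ?_
  have h1 : |(eebZ t).arg| < Real.pi / 2 := by
    rw [Complex.abs_arg_lt_pi_div_two_iff]
    left
    rw [eebZ_re]
    exact one_pos
  have h2 : (Complex.log (eebZ t) * (-(1 / 2 : ℂ))).im = -(eebZ t).arg / 2 := by
    rw [show (-(1 / 2 : ℂ)) = ((-(1 / 2) : ℝ) : ℂ) by push_cast; ring, Complex.im_mul_ofReal,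
      Complex.log_im]
    ring
  rw [h2]
  rw [abs_lt] at h1
  have hpi := Real.pi_pos
  exact Real.cos_pos_of_mem_Ioo ⟨by linarith [h1.2], by linarith [h1.1]⟩

/-- the equations for the real and the imaginary part -/
theorem eebU_eqs (t : ℝ) :
    ((eebU t).re ^ 2 - (eebU t).im ^ 2) * (1 + t ^ 4 / 4) = 1 ∧
    2 * (eebU t).re * (eebU t).im = -(t ^ 2 / 2) * ((eebU t).re ^ 2 - (eebU t).im ^ 2) := by
  have h := eebU_sq t
  have hr := congrArg Complex.re h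
  have hi := congrArg Complex.im h
  simp only [Complex.mul_re, Complex.mul_im, Complex.one_re, Complex.one_im, eebZ_re, eebZ_im]
    at hr hi
  have hB : 2 * (eebU t).re * (eebU t).im =
      -(t ^ 2 / 2) * ((eebU t).re ^ 2 - (eebU t).im ^ 2) := by
    linear_combination hi
  refine ⟨?_, hB⟩
  linear_combination hr + (t ^ 2 / 2) * hB

theorem eebU_im (t : ℝ) : (eebU t).im ≤ 0 ∧ 0 < (eebU t).re + (eebU t).im := by
  obtain ⟨h1, h2⟩ := eebU_eqs t
  have hp := eebU_re t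
  have hA : 0 < (eebU t).re ^ 2 - (eebU t).im ^ 2 := by
    have h3 : 0 < 1 + t ^ 4 / 4 := by positivity
    by_contra hc
    rw [not_lt] at hc
    have := mul_nonpos_of_nonpos_of_nonneg hc h3.le
    linarith
  have hq : (eebU t).im ≤ 0 := by
    by_contra hc
    rw [not_le] at hc
    have h4 : 0 < 2 * (eebU t).re * (eebU t).im := by positivity
    rw [h2] at h4
    have h5 : 0 ≤ t ^ 2 / 2 * ((eebU t).re ^ 2 - (eebU t).im ^ 2) := by positivity
    linarith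
  refine ⟨hq, ?_⟩
  have h6 : 0 < (eebU t).re - (eebU t).im := by linarith
  by_contra hc
  rw [not_lt] at hc
  have h7 : ((eebU t).re - (eebU t).im) * ((eebU t).re + (eebU t).im) ≤ 0 :=
    mul_nonpos_of_nonneg_of_nonpos h6.le hc
  have h8 : ((eebU t).re - (eebU t).im) * ((eebU t).re + (eebU t).im) =
    (eebU t).re ^ 2 - (eebU t).im ^ 2 := by ring
  linarith

theorem eeb_exp : Complex.exp (Real.pi / 4 * Complex.I) =
    ((Real.sqrt 2 / 2 : ℝ) : ℂ) * (1 + Complex.I) := by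
  rw [show (Real.pi / 4 * Complex.I : ℂ) = ((Real.pi / 4 : ℝ) : ℂ) * Complex.I by push_cast; ring,
    Complex.exp_mul_I, ← Complex.ofReal_cos, ← Complex.ofReal_sin, Real.cos_pi_div_four,
    Real.sin_pi_div_four]
  ring

theorem eeb_norm_exp : ‖Complex.exp (Real.pi / 4 * Complex.I)‖ = 1 := by
  rw [show (Real.pi / 4 * Complex.I : ℂ) = ((Real.pi / 4 : ℝ) : ℂ) * Complex.I by push_cast; ring]
  exact Complex.norm_exp_ofReal_mul_I _

theorem eeb_eq (t : ℝ) : EE t = Complex.exp (Real.pi / 4 * Complex.I) * eebU t := rfl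

theorem eebZ_norm (t : ℝ) : 1 ≤ ‖eebZ t‖ := by
  have := Complex.abs_re_le_norm (eebZ t)
  rwa [eebZ_re, abs_one] at this

theorem eebU_norm (t : ℝ) : ‖eebU t‖ ≤ 1 := by
  have h := congrArg norm (eebU_sq t)
  rw [norm_mul, norm_mul, norm_one] at h
  have h1 := eebZ_norm t
  have h2 : ‖eebU t‖ * ‖eebU t‖ ≤ 1 := by
    nlinarith [mul_nonneg (norm_nonneg (eebU t)) (norm_nonneg (eebU t))]
  by_contra hc
  rw [not_le] at hc
  nlinarith

theorem eeb_im (t : ℝ) : (EE t).im = Real.sqrt 2 / 2 * ((eebU t).re + (eebU t).im) := by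
  rw [eeb_eq, eeb_exp, mul_assoc, Complex.im_ofReal_mul]
  congr 1
  rw [Complex.mul_im]
  simp
  ring

theorem eeb_bound (t : ℝ) : 0 ≤ (EE t).im ∧ (EE t).im ≤ 3 / (1 + t ^ 2) := by
  obtain ⟨h1, h2⟩ := eebU_eqs t
  obtain ⟨h3, h4⟩ := eebU_im t
  rw [eeb_im]
  have hs : 0 < Real.sqrt 2 / 2 := by positivity
  have hs2 : (Real.sqrt 2 / 2) ^ 2 = 1 / 2 := by
    rw [div_pow, Real.sq_sqrt (by norm_num)]
    norm_num
  refine ⟨mul_nonneg hs.le h4.le, ?_⟩
  rw [le_div_iff₀ (by positivity)]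
  have h5 : (Real.sqrt 2 / 2 * ((eebU t).re + (eebU t).im) * (1 + t ^ 2)) ^ 2 ≤ 3 ^ 2 := by
    have e1 : ((eebU t).re + (eebU t).im) ^ 2 ≤ (eebU t).re ^ 2 - (eebU t).im ^ 2 := by
      nlinarith
    have e2 : (1 + t ^ 2) ^ 2 ≤ 4 * (1 + t ^ 4 / 4) * 2 := by nlinarith [sq_nonneg (t ^ 2 - 1)]
    have e3 : 0 ≤ (eebU t).re ^ 2 - (eebU t).im ^ 2 := le_trans (sq_nonneg _) e1
    calc (Real.sqrt 2 / 2 * ((eebU t).re + (eebU t).im) * (1 + t ^ 2)) ^ 2
        = (Real.sqrt 2 / 2) ^ 2 * ((eebU t).re + (eebU t).im) ^ 2 * (1 + t ^ 2) ^ 2 := by ring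
      _ = 1 / 2 * ((eebU t).re + (eebU t).im) ^ 2 * (1 + t ^ 2) ^ 2 := by rw [hs2]
      _ ≤ 1 / 2 * ((eebU t).re ^ 2 - (eebU t).im ^ 2) * (4 * (1 + t ^ 4 / 4) * 2) := by
          apply mul_le_mul _ e2 (by positivity) (by positivity)
          linarith
      _ = 4 * (((eebU t).re ^ 2 - (eebU t).im ^ 2) * (1 + t ^ 4 / 4)) := by ring
      _ = 4 := by rw [h1, mul_one]
      _ ≤ 3 ^ 2 := by norm_num
  exact (le_abs_self _).trans (abs_le_of_sq_le_sq h5 (by norm_num))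

theorem eeb_deriv (t : ℝ) :
    HasDerivAt EE (-(Complex.I * t / 2) / (1 + Complex.I * (t : ℂ) ^ 2 / 2) * EE t) t := by
  have h1 : HasDerivAt (fun w : ℂ => 1 + Complex.I * w ^ 2 / 2) (Complex.I * t) (t : ℂ) := by
    have h2 : HasDerivAt (fun w : ℂ => w ^ 2) (2 * (t : ℂ)) (t : ℂ) := by
      have := hasDerivAt_pow 2 (t : ℂ)
      simpa using this
    have h3 := ((h2.const_mul Complex.I).div_const 2).const_add 1
    refine h3.congr_deriv ?_
    ring
  have h4 := h1.cpow_const (c := -(1 / 2 : ℂ)) (eebZ_slit t)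
  have h5 := (h4.const_mul (Complex.exp (Real.pi / 4 * Complex.I))).comp_ofReal
  refine h5.congr_deriv ?_
  have hz : (1 + Complex.I * (t : ℂ) ^ 2 / 2) ≠ 0 := eebZ_ne t
  rw [Complex.cpow_sub _ _ hz, Complex.cpow_one]
  unfold EE
  field_simp

theorem eeb_taylor (s : ℝ) (hs : 0 ≤ s) (u : ℂ) (hu : u * u * (1 + Complex.I * s) = 1)
    (hre : 0 < u.re) (hn : ‖u‖ ≤ 1) :
    ‖u - (1 - Complex.I * s / 2 - 3 * (s : ℂ) ^ 2 / 8)‖ ≤ 3 * s ^ 3 := by
  obtain ⟨P, hP⟩ : ∃ P : ℂ, P = 1 - Complex.I * s / 2 - 3 * (s : ℂ) ^ 2 / 8 := ⟨_, rfl⟩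
  rw [← hP]
  have hI : Complex.I ^ 2 = -1 := Complex.I_sq
  have hsn : ‖(s : ℂ)‖ = s := by rw [Complex.norm_real, Real.norm_eq_abs, abs_of_nonneg hs]
  by_cases h1 : s ≤ 1
  · have hPre : P.re = 1 - 3 * s ^ 2 / 8 := by
      have e : P = ((1 - 3 * s ^ 2 / 8 : ℝ) : ℂ) + ((-(s / 2) : ℝ) : ℂ) * Complex.I := by
        rw [hP]
        push_cast
        ring
      rw [e, eeb_re]
    have hz1 : 1 ≤ ‖1 + Complex.I * (s : ℂ)‖ := by
      have := Complex.abs_re_le_norm (1 + Complex.I * (s : ℂ))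
      simpa using this
    have hkey : (P - u) * (P + u) * (1 + Complex.I * s) =
        (s : ℂ) ^ 3 * (-(5 / 8) * Complex.I - 15 / 64 * s + 9 / 64 * Complex.I * (s : ℂ) ^ 2) := by
      have e1 : (P - u) * (P + u) * (1 + Complex.I * s) =
          P ^ 2 * (1 + Complex.I * s) - u * u * (1 + Complex.I * s) := by ring
      rw [e1, hu, hP]
      have hI3 : Complex.I ^ 3 = -Complex.I := Complex.I_pow_three
      ring_nf
      simp only [hI, hI3]
      ring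
    have hb : ‖(-(5 / 8) * Complex.I - 15 / 64 * (s : ℂ) +
        9 / 64 * Complex.I * (s : ℂ) ^ 2 : ℂ)‖ ≤ 1 := by
      refine (norm_add_le _ _).trans ?_
      have e1 : ‖(-(5 / 8) * Complex.I - 15 / 64 * (s : ℂ) : ℂ)‖ ≤ 5 / 8 + 15 / 64 * s := by
        refine (norm_sub_le _ _).trans ?_
        rw [norm_mul, norm_mul, hsn, Complex.norm_I, norm_neg]
        norm_num
      have e2 : ‖(9 / 64 * Complex.I * (s : ℂ) ^ 2 : ℂ)‖ = 9 / 64 * s ^ 2 := by
        rw [norm_mul, norm_mul, norm_pow, hsn, Complex.norm_I]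
        norm_num
      rw [e2]
      nlinarith
    have hn1 := congrArg norm hkey
    rw [norm_mul, norm_mul, norm_mul, norm_pow, hsn] at hn1
    have hPu : 5 / 8 ≤ ‖P + u‖ := by
      have e1 := Complex.abs_re_le_norm (P + u)
      have e2 : (P + u).re = 1 - 3 * s ^ 2 / 8 + u.re := by rw [Complex.add_re, hPre]
      rw [e2] at e1
      have e3 := le_abs_self (1 - 3 * s ^ 2 / 8 + u.re)
      nlinarith
    have hprod : ‖P - u‖ * (5 / 8) ≤ s ^ 3 := by
      have e1 : ‖P - u‖ * (5 / 8) ≤ ‖P - u‖ * ‖P + u‖ :=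
        mul_le_mul_of_nonneg_left hPu (norm_nonneg _)
      have e2 : ‖P - u‖ * ‖P + u‖ ≤ ‖P - u‖ * ‖P + u‖ * ‖1 + Complex.I * (s : ℂ)‖ :=
        le_mul_of_one_le_right (by positivity) hz1
      have e3 : s ^ 3 * ‖(-(5 / 8) * Complex.I - 15 / 64 * (s : ℂ) +
          9 / 64 * Complex.I * (s : ℂ) ^ 2 : ℂ)‖ ≤ s ^ 3 * 1 :=
        mul_le_mul_of_nonneg_left hb (by positivity)
      linarith
    rw [norm_sub_rev]
    have : 0 ≤ s ^ 3 := by positivity
    linarith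
  · rw [not_le] at h1
    have hPn : ‖P‖ ≤ 1 + s / 2 + 3 * s ^ 2 / 8 := by
      rw [hP]
      refine (norm_sub_le _ _).trans (add_le_add ((norm_sub_le _ _).trans ?_) ?_)
      · rw [norm_one, norm_div, norm_mul, hsn, Complex.norm_I]
        norm_num
      · rw [norm_div, norm_mul, norm_pow, hsn]
        norm_num
    refine (norm_sub_le _ _).trans ?_
    have e1 : 1 ≤ s ^ 3 := one_le_pow₀ h1.le
    have e2 : s ≤ s ^ 3 := le_self_pow₀ h1.le (by norm_num)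
    have e3 : s ^ 2 ≤ s ^ 3 := pow_le_pow_right₀ h1.le (by norm_num)
    linarith

theorem eeb : EebStmt := by
  refine ⟨?_, eeb_bound, ?_, eeb_deriv, 3 / 8, ?_⟩
  · intro t
    rw [eeb_eq, norm_mul, eeb_norm_exp, one_mul]
    exact eebU_norm t
  · rw [continuous_iff_continuousAt]
    intro t
    exact (eeb_deriv t).continuousAt
  · intro t
    have hu : eebU t * eebU t * (1 + Complex.I * ((t ^ 2 / 2 : ℝ) : ℂ)) = 1 := by
      have h := eebU_sq t
      have e : eebZ t = 1 + Complex.I * ((t ^ 2 / 2 : ℝ) : ℂ) := by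
        unfold eebZ
        push_cast
        ring
      rwa [e] at h
    have h := eeb_taylor (t ^ 2 / 2) (by positivity) (eebU t) hu (eebU_re t) (eebU_norm t)
    rw [eeb_eq, ← mul_sub, norm_mul, eeb_norm_exp, one_mul]
    have e1 : (1 - Complex.I * ((t ^ 2 / 2 : ℝ) : ℂ) / 2 - 3 * (((t ^ 2 / 2 : ℝ) : ℂ)) ^ 2 / 8 : ℂ) =
        1 - Complex.I * (t : ℂ) ^ 2 / 4 - 3 * (t : ℂ) ^ 4 / 32 := by
      push_cast
      ring
    rw [e1] at h
    calc ‖eebU t - (1 - Complex.I * (t : ℂ) ^ 2 / 4 - 3 * (t : ℂ) ^ 4 / 32)‖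
        ≤ 3 * (t ^ 2 / 2) ^ 3 := h
      _ = 3 / 8 * t ^ 6 := by ring

end

end Pool.Agent.BEJ.H27
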